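import Pool.Agent.Lib.MP_651af7_nt.Es.Fin

/-! Polynomials in the coordinates given by a basis of linear forms. -/

namespace Pool.Agent.Lib.MP_8865d3_nt.Em

open Finset Matrix MvPolynomial

variable {R : Type} [CommRing R] {r q : ℕ}

/-- The matrix whose rows are chosen among the forms `L j` and the unit vectors. -/
def rowM (L : Fin q → Fin r → R) (ρ : Fin r → Fin q ⊕ Fin r) : Matrix (Fin r) (Fin r) R :=
  Matrix.of fun l => Sum.elim L (fun i => Pi.single i 1) (ρ l)

/-- The polynomial `f` in the coordinates `z = N t`, with denominators cleared. -/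
noncomputable def hat (N : Matrix (Fin r) (Fin r) R) (f : MvPolynomial (Fin r) R) :
    MvPolynomial (Fin r) R := aeval (fun i => ∑ l, C (N.adjugate i l) * X l) f

/-- A base function times a product of linear forms. -/
noncomputable def prd (L : Fin q → Fin r → R) (h : R) (e : Fin q → ℕ) : MvPolynomial (Fin r) R :=
  C h * ∏ j, (∑ i, C (L j i) * X i) ^ e j

theorem rowM_map {R' : Type} [CommRing R'] (φ : R →+* R') (L : Fin q → Fin r → R)
    (ρ : Fin r → Fin q ⊕ Fin r) : (rowM L ρ).map φ = rowM (fun j i => φ (L j i)) ρ := by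
  ext l i
  simp only [rowM, Matrix.map_apply, Matrix.of_apply]
  cases ρ l with
  | inl j => rfl
  | inr j =>
    simp only [Sum.elim_inr, Pi.single_apply]
    split_ifs <;> simp

/- `RingHom.map_adjugate`, induction on `f`. -/
theorem hat_map {R' : Type} [CommRing R'] (φ : R →+* R') (N : Matrix (Fin r) (Fin r) R)
    (f : MvPolynomial (Fin r) R) : map φ (hat N f) = hat (N.map φ) (map φ f) := by
  have h : (N.map φ).adjugate = N.adjugate.map φ := (RingHom.map_adjugate φ N).symm
  unfold hat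
  induction f using MvPolynomial.induction_on with
  | C a => simp
  | add p q hp hq => simp only [map_add, hp, hq]
  | mul_X p i hp =>
    simp only [map_mul, hp, map_X, aeval_X, map_sum, map_C, h, Matrix.map_apply]

theorem prd_map {R' : Type} [CommRing R'] (φ : R →+* R') (L : Fin q → Fin r → R) (h : R)
    (e : Fin q → ℕ) : map φ (prd L h e) = prd (fun j i => φ (L j i)) (φ h) e := by
  simp only [prd, map_mul, map_prod, map_pow, map_sum, map_C, map_X]

theorem eval_prd (L : Fin q → Fin r → R) (h : R) (e : Fin q → ℕ) (t : Fin r → R) :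
    eval t (prd L h e) = h * ∏ j, (L j ⬝ᵥ t) ^ e j := by
  simp only [prd, map_mul, map_prod, map_pow, map_sum, eval_C, eval_X, dotProduct]

theorem eval_hat (N : Matrix (Fin r) (Fin r) R) (f : MvPolynomial (Fin r) R) (z : Fin r → R) :
    eval z (hat N f) = eval (N.adjugate *ᵥ z) f := by
  unfold hat
  induction f using MvPolynomial.induction_on with
  | C a => simp
  | add p q hp hq => simp only [map_add, hp, hq]
  | mul_X p i hp =>
    simp only [map_mul, hp, aeval_X, map_sum, eval_C, eval_X, Matrix.mulVec, dotProduct]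

/- `eval_hat`, `adjugate_mul`; compare `hom_scale` (`Es/Hom`). -/
theorem eval_hat_mul (N : Matrix (Fin r) (Fin r) R) {f : MvPolynomial (Fin r) R} {β : ℕ}
    (hf : f.IsHomogeneous β) (t : Fin r → R) :
    eval (N *ᵥ t) (hat N f) = N.det ^ β * eval t f := by
  rw [eval_hat, Matrix.mulVec_mulVec, Matrix.adjugate_mul, Matrix.smul_mulVec, Matrix.one_mulVec,
    eval_eq', eval_eq', Finset.mul_sum]
  refine Finset.sum_congr rfl fun μ hμ => ?_
  have h1 : ∑ i, μ i = β := by
    have h2 := hf (mem_support_iff.mp hμ)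
    rw [← h2, Finsupp.weight_apply, Finsupp.sum_fintype _ _ (by simp)]
    simp
  simp only [Pi.smul_apply, smul_eq_mul, mul_pow, Finset.prod_mul_distrib,
    Finset.prod_pow_eq_pow_sum, h1]
  ring

/- `IsHomogeneous.aeval`. -/
theorem hat_hom (N : Matrix (Fin r) (Fin r) R) {f : MvPolynomial (Fin r) R} {β : ℕ}
    (hf : f.IsHomogeneous β) : (hat N f).IsHomogeneous β := by
  have h := hf.aeval (fun i => ∑ l, C (N.adjugate i l) * X l : Fin r → MvPolynomial (Fin r) R)
    (n := 1) (fun i => IsHomogeneous.sum _ _ _ fun l _ => isHomogeneous_C_mul_X _ _)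
  rwa [one_mul] at h

theorem hat_prd (N : Matrix (Fin r) (Fin r) R) (L : Fin q → Fin r → R) (h : R) (e : Fin q → ℕ) :
    hat N (prd L h e) = prd (fun j => L j ᵥ* N.adjugate) h e := by
  simp only [hat, prd, map_mul, map_prod, map_pow, map_sum, aeval_C, aeval_X, algebraMap_eq]
  congr 1
  refine Finset.prod_congr rfl fun j _ => ?_
  congr 1
  simp only [Finset.mul_sum, Matrix.vecMul, dotProduct, map_sum, map_mul, Finset.sum_mul, mul_assoc]
  exact Finset.sum_comm

theorem Loc_low_mul {σ : Type} (W : σ → ℝ) {P Q : MvPolynomial σ R} {a b : ℝ}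
    (hP : ∀ μ ∈ P.support, a ≤ Finsupp.weight W μ) (hQ : ∀ μ ∈ Q.support, b ≤ Finsupp.weight W μ) :
    ∀ μ ∈ (P * Q).support, a + b ≤ Finsupp.weight W μ := by
  classical
  intro μ hμ
  obtain ⟨μ₁, h₁, μ₂, h₂, rfl⟩ := Finset.mem_add.1 (support_mul P Q hμ)
  rw [map_add]
  exact add_le_add (hP _ h₁) (hQ _ h₂)

theorem Loc_low_C {σ : Type} (W : σ → ℝ) (h : R) :
    ∀ μ ∈ (C h : MvPolynomial σ R).support, (0 : ℝ) ≤ Finsupp.weight W μ := by
  classical
  intro μ hμ
  have h1 : μ = 0 := by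
    have := support_monomial_subset (show μ ∈ (monomial (0 : σ →₀ ℕ) h).support from hμ)
    simpa using this
  rw [h1, map_zero]

theorem Loc_low_pow {σ : Type} (W : σ → ℝ) {P : MvPolynomial σ R} {a : ℝ}
    (hP : ∀ μ ∈ P.support, a ≤ Finsupp.weight W μ) (n : ℕ) :
    ∀ μ ∈ (P ^ n).support, n * a ≤ Finsupp.weight W μ := by
  induction n with
  | zero =>
    rw [pow_zero, Nat.cast_zero, zero_mul, ← C_1]
    exact Loc_low_C W 1
  | succ n ih =>
    rw [pow_succ, Nat.cast_succ, add_one_mul]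
    exact Loc_low_mul W ih hP

theorem Loc_low_lin (W : Fin r → ℝ) (u : Fin r → R) {a : ℝ} (h : ∀ l, u l ≠ 0 → a ≤ W l) :
    ∀ μ ∈ (∑ i, C (u i) * X i : MvPolynomial (Fin r) R).support, a ≤ Finsupp.weight W μ := by
  classical
  intro μ hμ
  obtain ⟨i, -, hi⟩ := Finset.mem_biUnion.1 (support_sum hμ)
  have hu : u i ≠ 0 := by
    rintro h0
    simp [h0] at hi
  rw [C_mul_X_eq_monomial] at hi
  have h1 : μ = Finsupp.single i 1 := by simpa using support_monomial_subset hi
  rw [h1, Finsupp.weight_single, one_smul]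
  exact h i hu

/- The property `∀ μ ∈ P.support, ν ≤ weight W μ` is additive under products (`support_mul`) and stable under
sums (`support_add`); induction on `e j` and on the product. -/
theorem low_prd (L : Fin q → Fin r → R) (h : R) (e : Fin q → ℕ) (W : Fin r → ℝ) (w : Fin q → ℝ)
    (hw : ∀ j l, e j ≠ 0 → L j l ≠ 0 → w j ≤ W l) :
    ∀ μ ∈ (prd L h e).support, ∑ j, e j * w j ≤ Finsupp.weight W μ := by
  classical
  have h1 : ∀ s : Finset (Fin q), ∀ μ ∈ (∏ j ∈ s, (∑ i, C (L j i) * X i) ^ e j :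
      MvPolynomial (Fin r) R).support, ∑ j ∈ s, e j * w j ≤ Finsupp.weight W μ := by
    intro s
    induction s using Finset.induction_on with
    | empty =>
      rw [prod_empty, sum_empty, ← C_1]
      exact Loc_low_C W 1
    | insert j s hj ih =>
      rw [prod_insert hj, sum_insert hj]
      refine Loc_low_mul W ?_ ih
      by_cases he : e j = 0
      · rw [he, pow_zero, Nat.cast_zero, zero_mul, ← C_1]
        exact Loc_low_C W 1
      · exact Loc_low_pow W (Loc_low_lin W (L j) fun l hl => hw j l he hl) (e j)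
  have h2 := Loc_low_mul W (Loc_low_C W h) (h1 univ)
  rwa [zero_add] at h2

/- Among the `ρ` with rows in `J` or unit rows and `det ≠ 0` (`ρ = Sum.inr` is one) take one with
`∏ l, v ((rowM u ρ *ᵥ t) l)` minimal.  If `(u j ᵥ* adjugate) l ≠ 0` then `Function.update ρ l (.inl j)` is again
admissible (`Matrix.cramer_transpose_apply`, or `det_updateRow` with `adjugate_apply`). -/
theorem greedy_rows {K : Type} [Field K] (v : AbsoluteValue K ℝ) (u : Fin q → Fin r → K)
    (J : Finset (Fin q)) (t : Fin r → K) (hu : ∀ j ∈ J, u j ⬝ᵥ t ≠ 0) (ht : ∀ i, t i ≠ 0) :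
    ∃ ρ : Fin r → Fin q ⊕ Fin r, (rowM u ρ).det ≠ 0 ∧ (∀ l, (rowM u ρ *ᵥ t) l ≠ 0) ∧
      ∀ j ∈ J, ∀ l, (u j ᵥ* (rowM u ρ).adjugate) l ≠ 0 → v ((rowM u ρ *ᵥ t) l) ≤ v (u j ⬝ᵥ t) := by
  classical
  let S : Finset (Fin r → Fin q ⊕ Fin r) :=
    univ.filter fun ρ => (rowM u ρ).det ≠ 0 ∧ ∀ l, (rowM u ρ *ᵥ t) l ≠ 0
  have h1 : rowM u Sum.inr = 1 := by
    ext l i
    simp [rowM, Matrix.one_apply, Pi.single_apply, eq_comm]
  obtain ⟨ρ, hρ, hm⟩ := S.exists_min_image (fun ρ => ∏ l, v ((rowM u ρ *ᵥ t) l))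
    ⟨Sum.inr, mem_filter.2 ⟨mem_univ _, by simp [h1], by simpa [h1] using ht⟩⟩
  obtain ⟨h2, h3⟩ := (mem_filter.1 hρ).2
  refine ⟨ρ, h2, h3, fun j hj l h => ?_⟩
  have e : rowM u (Function.update ρ l (.inl j)) = (rowM u ρ).updateRow l (u j) := by
    ext l' i
    rcases eq_or_ne l' l with rfl | h' <;> simp [rowM, *]
  have e1 : rowM u (Function.update ρ l (.inl j)) *ᵥ t =
      Function.update (rowM u ρ *ᵥ t) l (u j ⬝ᵥ t) := by
    rw [e]
    funext l'
    rcases eq_or_ne l' l with rfl | h' <;> simp [Matrix.mulVec, *]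
  have e2 : (rowM u (Function.update ρ l (.inl j))).det = (u j ᵥ* (rowM u ρ).adjugate) l := by
    rw [e, ← cramer_transpose_apply, cramer_eq_adjugate_mulVec, ← adjugate_transpose,
      mulVec_transpose]
  have h4 := hm _ (mem_filter.2 ⟨mem_univ _, e2 ▸ h, fun l' => by
    rw [e1]
    rcases eq_or_ne l' l with rfl | h'
    · simpa using hu j hj
    · simpa [h'] using h3 l'⟩)
  have e3 : ∏ l' ∈ univ.erase l, v (Function.update (rowM u ρ *ᵥ t) l (u j ⬝ᵥ t) l') =
      ∏ l' ∈ univ.erase l, v ((rowM u ρ *ᵥ t) l') :=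
    prod_congr rfl fun l' hl' => by rw [Function.update_of_ne (ne_of_mem_erase hl')]
  rw [e1, ← mul_prod_erase _ _ (mem_univ l), ← mul_prod_erase univ _ (mem_univ l),
    Function.update_self, e3] at h4
  exact le_of_mul_le_mul_right h4 (prod_pos fun l' _ => v.pos (h3 l'))

/- `eval_eq'`, `v.sum_le`; take the monomial with the largest value; `∑ l, μ l = β`. -/
theorem exists_mono {K : Type} [Field K] (v : AbsoluteValue K ℝ) {f : MvPolynomial (Fin r) K}
    {β N : ℕ} (hf : f.IsHomogeneous β) (hN : f.support.card ≤ N) {c M : ℝ} (hM : 0 < M)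
    (hc : ∀ μ, v (coeff μ f) ≤ Real.exp c) {z : Fin r → K} (hz : ∀ l, z l ≠ 0)
    (h0 : eval z f ≠ 0) : ∃ μ ∈ f.support, Real.log (v (eval z f)) ≤ Real.log N + c +
      β * Real.log M - Finsupp.weight (fun l => Real.log (M / v (z l))) μ := by
  classical
  have hne : f.support.Nonempty := by
    rw [Finset.nonempty_iff_ne_empty]
    intro h
    rw [support_eq_empty] at h
    exact h0 (by rw [h, map_zero])
  obtain ⟨μ, hμ, hmax⟩ := Finset.exists_max_image f.support (fun μ => ∏ l, v (z l) ^ μ l) hne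
  refine ⟨μ, hμ, ?_⟩
  have hzv : ∀ l, 0 < v (z l) := fun l => v.pos (hz l)
  have hP : 0 < ∏ l, v (z l) ^ μ l := prod_pos fun l _ => pow_pos (hzv l) _
  have hN0 : (0 : ℝ) < N := by exact_mod_cast (card_pos.2 hne).trans_le hN
  have h1 : v (eval z f) ≤ N * (Real.exp c * ∏ l, v (z l) ^ μ l) := by
    rw [eval_eq']
    refine (v.sum_le _ _).trans ((sum_le_card_nsmul _ _ (Real.exp c * ∏ l, v (z l) ^ μ l)
      fun ν hν => ?_).trans ?_)
    · rw [map_mul, map_prod]
      simp only [map_pow]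
      exact mul_le_mul (hc ν) (hmax ν hν) (prod_nonneg fun l _ => pow_nonneg (hzv l).le _)
        (Real.exp_pos _).le
    · rw [nsmul_eq_mul]
      exact mul_le_mul_of_nonneg_right (by exact_mod_cast hN) (by positivity)
  have h2 := Real.log_le_log (v.pos h0) h1
  rw [Real.log_mul hN0.ne' (by positivity), Real.log_mul (Real.exp_pos _).ne' hP.ne', Real.log_exp,
    Real.log_prod fun l _ => (pow_pos (hzv l) _).ne'] at h2
  have h3 : ∑ l, μ l = β := by
    have h4 := hf (mem_support_iff.1 hμ)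
    rw [Finsupp.weight_apply, Finsupp.sum_fintype _ _ (fun _ => by simp)] at h4
    simpa using h4
  have h5 : Finsupp.weight (fun l => Real.log (M / v (z l))) μ =
      β * Real.log M - ∑ l, Real.log (v (z l) ^ μ l) := by
    rw [Finsupp.weight_apply, Finsupp.sum_fintype _ _ (fun _ => by simp), ← h3, Nat.cast_sum,
      sum_mul, ← sum_sub_distrib]
    refine sum_congr rfl fun l _ => ?_
    rw [Real.log_div hM.ne' (hzv l).ne', Real.log_pow, nsmul_eq_mul, mul_sub]
  rw [h5]
  linarith

end Pool.Agent.Lib.MP_8865d3_nt.Em
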