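import Pool.Agent.Lib.MP_8865d3_nt.Em.Val
import Pool.Agent.Lib.MP_8865d3_nt.Em.Loc
import Pool.Agent.Lib.MP_8865d3_nt.FtAn
import Pool.Agent.Lib.MP_651af7_nt.Es.UMin

/-! The valuative criterion at the rational points of the curve. -/

namespace Pool.Agent.Lib.MP_8865d3_nt.Em

open Finset Matrix MvPolynomial MeasureTheory Pool.Agent.Lib.MP_651af7_nt.Es

variable {k : Type} [Field k] [NumberField k]

private theorem fibz_eq (W : WeierstrassCurve ℚ) {L : Type} [Field L] (f : ℚ →+* L)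
    (σ : k →+* L) {x y : L} (h : (W.map f).toAffine.Equation x y) :
    y ^ 2 + (Polynomial.C (W.map (algebraMap ℚ k)).a₁ * Polynomial.X +
      Polynomial.C (W.map (algebraMap ℚ k)).a₃).eval₂ σ x * y =
      (Polynomial.X ^ 3 + Polynomial.C (W.map (algebraMap ℚ k)).a₂ * Polynomial.X ^ 2 +
        Polynomial.C (W.map (algebraMap ℚ k)).a₄ * Polynomial.X +
        Polynomial.C (W.map (algebraMap ℚ k)).a₆).eval₂ σ x := by
  obtain rfl : σ.comp (algebraMap ℚ k) = f := RingHom.ext_rat _ _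
  have h1 := (WeierstrassCurve.Affine.equation_iff x y).1 h
  simp only [WeierstrassCurve.map_a₁, WeierstrassCurve.map_a₂, WeierstrassCurve.map_a₃,
    WeierstrassCurve.map_a₄, WeierstrassCurve.map_a₆, RingHom.comp_apply] at h1
  simp only [Polynomial.eval₂_add, Polynomial.eval₂_mul, Polynomial.eval₂_pow, Polynomial.eval₂_C,
    Polynomial.eval₂_X, WeierstrassCurve.map_a₁, WeierstrassCurve.map_a₂, WeierstrassCurve.map_a₃,
    WeierstrassCurve.map_a₄, WeierstrassCurve.map_a₆]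
  linear_combination h1

private theorem fibz_red (W : WeierstrassCurve ℚ) (g : MvPolynomial (Fin 2) k) :
    ∃ α β : Polynomial k, ∀ (L : Type) [Field L] (f : ℚ →+* L) (σ : k →+* L) (x y : L),
      (W.map f).toAffine.Equation x y →
        eval₂ σ ![x, y] g = α.eval₂ σ x + β.eval₂ σ x * y := by
  induction g using MvPolynomial.induction_on with
  | C a => exact ⟨Polynomial.C a, 0, fun L _ f σ x y _ => by simp⟩
  | add p q hp hq =>
    obtain ⟨α, β, h⟩ := hp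
    obtain ⟨α', β', h'⟩ := hq
    refine ⟨α + α', β + β', fun L _ f σ x y e => ?_⟩
    rw [eval₂_add, h L f σ x y e, h' L f σ x y e, Polynomial.eval₂_add, Polynomial.eval₂_add]
    ring
  | mul_X p i hp =>
    obtain ⟨α, β, h⟩ := hp
    fin_cases i
    · refine ⟨α * Polynomial.X, β * Polynomial.X, fun L _ f σ x y e => ?_⟩
      rw [eval₂_mul, eval₂_X, h L f σ x y e, Polynomial.eval₂_mul_X, Polynomial.eval₂_mul_X]
      change _ * x = _
      ring
    · refine ⟨β * (Polynomial.X ^ 3 + Polynomial.C (W.map (algebraMap ℚ k)).a₂ * Polynomial.X ^ 2 +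
        Polynomial.C (W.map (algebraMap ℚ k)).a₄ * Polynomial.X +
        Polynomial.C (W.map (algebraMap ℚ k)).a₆), α - β *
        (Polynomial.C (W.map (algebraMap ℚ k)).a₁ * Polynomial.X +
        Polynomial.C (W.map (algebraMap ℚ k)).a₃), fun L _ f σ x y e => ?_⟩
      rw [eval₂_mul, eval₂_X, h L f σ x y e, Polynomial.eval₂_sub, Polynomial.eval₂_mul,
        Polynomial.eval₂_mul, ← fibz_eq W f σ e]
      change _ * y = _
      ring

private theorem fibz_norm (W : WeierstrassCurve ℚ) (g : MvPolynomial (Fin 2) k) :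
    ∃ N : Polynomial k, N ≠ 0 ∧ ((∀ (L : Type) [Field L] (f : ℚ →+* L) (σ : k →+* L) (x y : L),
      (W.map f).toAffine.Equation x y → eval₂ σ ![x, y] g = 0) ∨
      ∀ (L : Type) [Field L] (f : ℚ →+* L) (σ : k →+* L) (x y : L),
        (W.map f).toAffine.Equation x y → eval₂ σ ![x, y] g = 0 → N.eval₂ σ x = 0) := by
  by_cases h : ∀ (L : Type) [Field L] (f : ℚ →+* L) (σ : k →+* L) (x y : L),
      (W.map f).toAffine.Equation x y → eval₂ σ ![x, y] g = 0
  · exact ⟨1, one_ne_zero, Or.inl h⟩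
  obtain ⟨α, β, hg⟩ := fibz_red W g
  refine ⟨α ^ 2 - α * β * (Polynomial.C (W.map (algebraMap ℚ k)).a₁ * Polynomial.X +
    Polynomial.C (W.map (algebraMap ℚ k)).a₃) - β ^ 2 * (Polynomial.X ^ 3 +
      Polynomial.C (W.map (algebraMap ℚ k)).a₂ * Polynomial.X ^ 2 +
      Polynomial.C (W.map (algebraMap ℚ k)).a₄ * Polynomial.X +
      Polynomial.C (W.map (algebraMap ℚ k)).a₆), fun h0 => h fun L _ f σ x y e => ?_,
    Or.inr fun L _ f σ x y e h0 => ?_⟩
  · have h1 := WeierstrassCurve.Affine.CoordinateRing.degree_norm_smul_basis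
      (W' := (W.map (algebraMap ℚ k)).toAffine) α β
    rw [WeierstrassCurve.Affine.CoordinateRing.norm_smul_basis, h0, Polynomial.degree_zero,
      eq_comm, _root_.max_eq_bot, two_nsmul, two_nsmul] at h1
    have h2 : α = 0 := by simpa using h1.1
    have h3 : β = 0 := by simpa using h1.2
    rw [hg L f σ x y e, h2, h3, Polynomial.eval₂_zero, zero_mul, add_zero]
  · rw [hg L f σ x y e] at h0
    rw [Polynomial.eval₂_sub, Polynomial.eval₂_sub, Polynomial.eval₂_mul, Polynomial.eval₂_mul,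
      Polynomial.eval₂_mul, Polynomial.eval₂_pow, Polynomial.eval₂_pow, ← fibz_eq W f σ e]
    linear_combination (α.eval₂ σ x - β.eval₂ σ x * (y + (Polynomial.C
      (W.map (algebraMap ℚ k)).a₁ * Polynomial.X +
      Polynomial.C (W.map (algebraMap ℚ k)).a₃).eval₂ σ x)) * h0

/- Copy `Van`, `alg_eq`, `alg_red`, `exists_norm` of `Lib/MP_8865d3_nt/FtAlg.lean` with two variables (do not import
that file).  For each `g` either both sides always hold or there is a norm `N ≠ 0`; `Z`, `Z'` collect the roots of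
the norms in `k` and `ℂ`. -/
theorem same_zero (W : WeierstrassCurve ℚ) (σ : k →+* ℂ) (Gs : Finset (PK k)) :
    ∃ (Z : Finset k) (Z' : Finset ℂ), ∀ x y : k, (W.map (algebraMap ℚ k)).toAffine.Equation x y →
      x ∉ Z → ∀ x' y' : ℂ, (W.map (algebraMap ℚ ℂ)).toAffine.Equation x' y' → x' ∉ Z' →
      ∀ g ∈ Gs, (eval ![x, y] g = 0 ↔ eval₂Hom σ ![x', y'] g = 0) := by
  classical
  choose N hN H using fun g : PK k => fibz_norm W g
  refine ⟨Gs.biUnion fun g => (N g).roots.toFinset,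
    Gs.biUnion fun g => ((N g).map σ).roots.toFinset, fun x y e hx x' y' e' hx' g hg => ?_⟩
  rcases H g with h | h
  · exact iff_of_true (h k _ (RingHom.id k) x y e) (h ℂ _ σ x' y' e')
  · refine iff_of_false (fun h0 => hx (mem_biUnion.2 ⟨g, hg, ?_⟩))
      fun h0 => hx' (mem_biUnion.2 ⟨g, hg, ?_⟩)
    · rw [Multiset.mem_toFinset, Polynomial.mem_roots (hN g)]
      exact h k _ (RingHom.id k) x y e h0
    · rw [Multiset.mem_toFinset, Polynomial.mem_roots (Polynomial.map_ne_zero (hN g)),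
        Polynomial.IsRoot, Polynomial.eval_map]
      exact h ℂ _ σ x' y' e' h0

/-- Local integrability in the charts given by the continuous branches of the curve. -/
def InMult {n r : ℕ} {M : Type} [Fintype M] (W : WeierstrassCurve ℚ) (σ : k →+* ℂ)
    (B : Matrix (Fin n) (Fin r) (PK k)) (G : M → MvPolynomial (Fin r) (PK k))
    (f : MvPolynomial (Fin r) (PK k)) : Prop :=
  ∀ (U : Set ℂ) (y : ℂ → ℂ), IsOpen U → ContinuousOn y U →
    (∀ x ∈ U, (W.map (algebraMap ℚ ℂ)).toAffine.Equation x (y x) ∧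
      mn (B.map (eval₂Hom σ ![x, y x])) ≠ 0) → ∀ c : ℝ, 0 < c → c < 1 →
    LocallyIntegrableOn (fun z : ℂ × (Fin r → ℂ) =>
      ‖eval₂ (eval₂Hom σ ![z.1, y z.1]) z.2 f‖ ^ 2 /
        (∑ m, ‖eval₂ (eval₂Hom σ ![z.1, y z.1]) z.2 (G m)‖ ^ 2) ^ c)
      {z | z.1 ∈ U ∧ z.2 ≠ 0} volume

theorem fib_supp {R K K' ι : Type} [CommRing R] [CommRing K] [CommRing K'] (φ : R →+* K)
    (ψ : R →+* K') (P : MvPolynomial ι R) (h : ∀ g ∈ P.coeffs, φ g = 0 ↔ ψ g = 0) :
    (map φ P).support = (map ψ P).support := by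
  ext μ
  rw [mem_support_iff, mem_support_iff, coeff_map, coeff_map]
  by_cases h0 : coeff μ P = 0
  · rw [h0, map_zero, map_zero]
    exact ⟨fun e => absurd rfl e, fun e => absurd rfl e⟩
  · exact (h _ (coeff_mem_coeffs μ h0)).not

theorem fib_lim {ν T : ℝ} (h : ∀ c : ℝ, 0 < c → c < 1 → c * ν ≤ T) : ν ≤ T := by
  have h1 : Filter.Tendsto (fun c : ℝ => c * ν) (nhdsWithin 1 (Set.Iio 1)) (nhds (1 * ν)) :=
    ((continuous_id.mul continuous_const).tendsto 1).mono_left nhdsWithin_le_nhds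
  rw [one_mul] at h1
  refine le_of_tendsto h1 ?_
  filter_upwards [Ioo_mem_nhdsLT (zero_lt_one' ℝ)] with c hc using h c hc.1 hc.2

/- `same_zero` for the finite set of all `mn B s`, all `(rowM L ρ).det`, all entries `(L j ᵥ* adjugate) l` and all
coefficients of all `hat (rowM L ρ) (prd ..)` and `hat (rowM L ρ) f`.  `Ft.exists_cx_branch` gives `U₀`, `y`; let
`U = U₀ \ Z'`.  For `0 < c < 1`: `li_fib` gives `x₀`; with `φ = eval₂Hom σ ![x₀, y x₀]`, `N₀ = (rowM L ρ).map φ`: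
`li_lin` for `A = N₀.adjugate` (`det_adjugate`), `eval_hat`, `hat_map`, `eval_map`, `hat_prd`, `prd_map`,
`low_prd`, `val_fib`; finally `c → 1` (trivial if `ν ≤ 0`). -/
theorem val_pt (W : WeierstrassCurve ℚ) (σ : k →+* ℂ) {n r q : ℕ} {M : Type} [Fintype M]
    (B : Matrix (Fin n) (Fin r) (PK k)) (L : Fin q → Fin r → PK k) (h : M → PK k)
    (e : M → Fin q → ℕ) {f : MvPolynomial (Fin r) (PK k)}
    (hf : InMult W σ B (fun m => prd L (h m) (e m)) f) :
    ∃ Z : Finset k, ∀ x y : k, (W.map (algebraMap ℚ k)).toAffine.Equation x y → x ∉ Z →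
      mn (B.map (eval ![x, y])) ≠ 0 → ∀ ρ : Fin r → Fin q ⊕ Fin r,
      ((rowM L ρ).map (eval ![x, y])).det ≠ 0 →
      (∃ m, map (eval ![x, y]) (hat (rowM L ρ) (prd L (h m) (e m))) ≠ 0) →
      ∀ (Wt : Fin r → ℝ) (w : Fin q → ℝ) (ν : ℝ), (∀ l, 0 ≤ Wt l) → (∃ l, Wt l = 0) →
      (∀ m j l, e m j ≠ 0 → eval ![x, y] ((L j ᵥ* (rowM L ρ).adjugate) l) ≠ 0 → w j ≤ Wt l) →
      (∀ m, ν ≤ ∑ j, e m j * w j) →
      ∀ μ ∈ (map (eval ![x, y]) (hat (rowM L ρ) f)).support,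
        ν ≤ Finsupp.weight Wt μ + ∑ l, Wt l := by
  classical
  obtain ⟨Gs, g1, g2, g3, g4, g5⟩ : ∃ Gs : Finset (PK k), (∀ s, mn B s ∈ Gs) ∧
      (∀ ρ, (rowM L ρ).det ∈ Gs) ∧ (∀ ρ j l, (L j ᵥ* (rowM L ρ).adjugate) l ∈ Gs) ∧
      (∀ ρ m, (hat (rowM L ρ) (prd L (h m) (e m))).coeffs ⊆ Gs) ∧
      ∀ ρ, (hat (rowM L ρ) f).coeffs ⊆ Gs := by
    have f1 := Set.finite_range (mn B)
    have f2 := Set.finite_range fun ρ => (rowM L ρ).det
    have f3 := Set.finite_range fun p : (Fin r → Fin q ⊕ Fin r) × Fin q × Fin r =>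
      (L p.2.1 ᵥ* (rowM L p.1).adjugate) p.2.2
    have f4 := Set.finite_iUnion fun p : (Fin r → Fin q ⊕ Fin r) × M =>
      (hat (rowM L p.1) (prd L (h p.2) (e p.2))).coeffs.finite_toSet
    have f5 := Set.finite_iUnion fun ρ => (hat (rowM L ρ) f).coeffs.finite_toSet
    refine ⟨((f1.union f2).union (f3.union (f4.union f5))).toFinset, fun s => ?_, fun ρ => ?_,
      fun ρ j l => ?_, fun ρ m g hg => ?_, fun ρ g hg => ?_⟩ <;> rw [Set.Finite.mem_toFinset]
    · exact Or.inl (Or.inl ⟨s, rfl⟩)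
    · exact Or.inl (Or.inr ⟨ρ, rfl⟩)
    · exact Or.inr (Or.inl ⟨(ρ, j, l), rfl⟩)
    · exact Or.inr (Or.inr (Or.inl (Set.mem_iUnion.2 ⟨(ρ, m), hg⟩)))
    · exact Or.inr (Or.inr (Or.inr (Set.mem_iUnion.2 ⟨ρ, hg⟩)))
  obtain ⟨Z, Z', hZ⟩ := same_zero W σ Gs
  refine ⟨Z, fun x y hxy hx hB ρ hdet ⟨m₀, hm₀⟩ Wt w ν hW ⟨i₀, hi₀⟩ hw hν μ hμ => ?_⟩
  replace hZ := hZ x y hxy hx
  obtain ⟨Z₀, hZ₀, hbr⟩ := Ft.exists_cx_branch (W.map (algebraMap ℚ ℂ))
  obtain ⟨x₁, hx₁⟩ := (hZ₀.union Z'.finite_toSet).infinite_compl.nonempty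
  obtain ⟨U₀, yy, hU₀, hxU, hy, hE⟩ := hbr x₁ fun h' => hx₁ (Or.inl h')
  have hU : IsOpen (U₀ \ (Z' : Set ℂ)) := hU₀.sdiff Z'.finite_toSet.isClosed
  obtain ⟨s, hs⟩ := Function.ne_iff.1 hB
  rw [mn_map] at hs
  refine fib_lim fun c hc hc1 => ?_
  obtain ⟨x₀, hx₀, -, hI⟩ := li_fib hU ⟨x₁, hxU, fun h' => hx₁ (Or.inr h')⟩
    (hf _ yy hU (hy.mono Set.sdiff_subset) (fun x' hx' => ⟨hE x' hx'.1, Function.ne_iff.2 ⟨s, by
      rw [mn_map]
      exact (hZ x' _ (hE x' hx'.1) hx'.2 _ (g1 s)).not.1 hs⟩⟩) c hc hc1) ∅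
  replace hZ := hZ x₀ _ (hE x₀ hx₀.1) hx₀.2
  dsimp only at hI
  generalize eval₂Hom σ ![x₀, yy x₀] = φ at hZ hI
  have hd : ((rowM L ρ).map φ).adjugate.det ≠ 0 := by
    rw [det_adjugate]
    refine pow_ne_zero _ ?_
    rw [← RingHom.mapMatrix_apply, ← RingHom.map_det] at hdet ⊢
    exact (hZ _ (g2 ρ)).not.1 hdet
  have hI' := li_lin hd hI
  simp only [← eval_map, ← eval_hat, ← hat_map] at hI'
  refine val_fib (fun m => map φ (hat (rowM L ρ) (prd L (h m) (e m)))) _ hc hI' Wt hW hi₀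
    (fun m μ' hμ' => (hν m).trans ?_) (m₀ := m₀) ?_ ?_
  · rw [hat_prd, prd_map] at hμ'
    exact low_prd _ _ _ Wt w (fun j l h1 h2 => hw m j l h1 ((hZ _ (g3 ρ j l)).not.2 h2)) μ' hμ'
  · rwa [← support_nonempty, ← fib_supp _ φ _ fun g hg => hZ g (g4 ρ m₀ hg), support_nonempty]
  · rwa [← fib_supp _ φ _ fun g hg => hZ g (g5 ρ hg)]

end Pool.Agent.Lib.MP_8865d3_nt.Em
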