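import Pool.Agent.Lib.MP_8865d3_nt.Em.Fib
import Pool.Agent.Lib.MP_651af7_nt.Es.UW

/-! The inequality with the multiplier ideal on projective bundles over an elliptic curve. -/

namespace Pool.Agent.Lib.MP_8865d3_nt.Em

open Finset Matrix MvPolynomial Height NumberField Pool.Agent.Lib.MP_651af7_nt.Es
  Pool.Agent.Lib.MP_651af7_nt.Rt

variable {k : Type} [Field k] [NumberField k]

/-- The local height of the divisor of a form of bidegree `(d, β)` with value `g`. -/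
noncomputable def lamM {n : ℕ} (v : AbsoluteValue k ℝ) (d β : ℕ) (P : Fin 3 → k) (X : Fin n → k)
    (g : k) : ℝ :=
  Real.log ((⨆ i, v (P i)) ^ d * (⨆ i, v (X i)) ^ β / v g)

omit [NumberField k] in
theorem main_ml_sup_pos {n : ℕ} (v : AbsoluteValue k ℝ) {X : Fin n → k} (hX : X ≠ 0) :
    0 < ⨆ i, v (X i) := by
  obtain ⟨i, hi⟩ := Function.ne_iff.1 hX
  exact (v.pos hi).trans_le (le_ciSup (f := fun i => v (X i)) (Set.finite_range _).bddAbove i)

omit [NumberField k] in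
theorem main_ml_P (v : AbsoluteValue k ℝ) {x y : k} {c : ℝ} (hc : 0 ≤ c) (hx : v x ≤ Real.exp c)
    (hy : v y ≤ Real.exp c) : 1 ≤ (⨆ i, v (![x, y, 1] i)) ∧ (⨆ i, v (![x, y, 1] i)) ≤ Real.exp c := by
  constructor
  · have := le_ciSup (f := fun i => v (![x, y, 1] i)) (Set.finite_range _).bddAbove 2
    simpa using this
  · refine ciSup_le fun i => ?_
    fin_cases i
    · exact hx
    · exact hy
    · simpa using hc

omit [NumberField k] in
theorem main_ml_lam {n : ℕ} (v : AbsoluteValue k ℝ) (d β : ℕ) {P : Fin 3 → k} {X : Fin n → k}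
    {g : k} (hP : 0 < ⨆ i, v (P i)) (hX : X ≠ 0) (hg : g ≠ 0) : lamM v d β P X g =
      d * Real.log (⨆ i, v (P i)) + β * Real.log (⨆ i, v (X i)) - Real.log (v g) := by
  have h1 := main_ml_sup_pos v hX
  rw [lamM, Real.log_div (by positivity) (v.pos hg).ne', Real.log_mul (by positivity)
    (by positivity), Real.log_pow, Real.log_pow]

/- One place.  `z = N *ᵥ t`, `Mx = ⨆ l, v (z l)`, `Wt l = log (Mx / v (z l))`, `w j = log (Mx / v (u j ⬝ᵥ t))`,
`ν = ∑ j, e m j * w j` for the `m` that makes it least, `l` an index where the second infimum is attained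
(`exists_eq_ciInf_of_finite`, `ciInf_le`).  `lamM (G m) = d log |P| + β log |X| - log v (h m) - ∑ j, e m j * log v (u j ⬝ᵥ t)`
(`eval_prd`; all factors with `e m j ≠ 0` are nonzero), `exists_mono` for `hat N (f l)` (`eval_hat_mul`, `hat_hom`),
`0 ≤ log |P| ≤ c`, and `|log |X| - log Mx| ≤ C (1 + c)` (`sup_cmp` for the square matrix `N` with `e = id`). -/
theorem mult_loc (n r q A A' D : ℕ) : ∃ C : ℝ, 0 ≤ C ∧ ∀ (v : AbsoluteValue k ℝ)
    (u : Fin q → Fin (r + 1) → k) (h : Fin (A + 1) → k) (e : Fin (A + 1) → Fin q → ℕ)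
    (f : Fin (A' + 1) → MvPolynomial (Fin (r + 1)) k) (β : Fin (A' + 1) → ℕ)
    (dG : Fin (A + 1) → ℕ) (df : Fin (A' + 1) → ℕ) (N : Matrix (Fin (r + 1)) (Fin (r + 1)) k)
    (x y : k) (t : Fin (r + 1) → k) (X : Fin n → k) (c : ℝ), 0 ≤ c →
    (∀ m, dG m ≤ D ∧ ∑ j, e m j ≤ D) →
    (∀ l, β l ≤ D ∧ (f l).IsHomogeneous (β l) ∧ (hat N (f l)).support.card ≤ D) →
    Tame v c N → v N.det ≤ Real.exp c → v x ≤ Real.exp c → v y ≤ Real.exp c →
    (∀ m, Real.exp (-c) ≤ v (h m)) → (∀ l μ, v (coeff μ (hat N (f l))) ≤ Real.exp c) → X ≠ 0 →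
    |Real.log (⨆ i, v (X i)) - Real.log (⨆ j, v (t j))| ≤ c → (∀ l, (N *ᵥ t) l ≠ 0) →
    (∀ m, eval t (prd u (h m) (e m)) ≠ 0) → (∀ l, eval t (f l) ≠ 0) →
    (∀ m j l, e m j ≠ 0 → (u j ᵥ* N.adjugate) l ≠ 0 → v ((N *ᵥ t) l) ≤ v (u j ⬝ᵥ t)) →
    (∀ (Wt : Fin (r + 1) → ℝ) (w : Fin q → ℝ) (ν : ℝ), (∀ l, 0 ≤ Wt l) → (∃ l, Wt l = 0) →
      (∀ m j l, e m j ≠ 0 → (u j ᵥ* N.adjugate) l ≠ 0 → w j ≤ Wt l) →
      (∀ m, ν ≤ ∑ j, e m j * w j) →
      ∀ l, ∀ μ ∈ (hat N (f l)).support, ν ≤ Finsupp.weight Wt μ + ∑ l, Wt l) →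
    (⨅ m, lamM v (dG m) (∑ j, e m j) ![x, y, 1] X (eval t (prd u (h m) (e m)))) -
      (⨅ l, lamM v (df l) (β l) ![x, y, 1] X (eval t (f l))) ≤
      ∑ l, lx v X ((N *ᵥ t) l) + C * (1 + c) := by
  obtain ⟨C0, hC0, H0⟩ := sup_cmp (K := k) (r + 1) (r + 1)
  refine ⟨2 * D + 2 + (2 * D + (r + 1)) * (C0 + 1) + D, by positivity, ?_⟩
  intro v u h e f β dG df N x y t X c hc hG hf hT _ hx hy hh hco hX hXt hz hG0 hf0 hle hval
  have ht : t ≠ 0 := by
    rintro rfl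
    exact hz 0 (by simp)
  obtain ⟨hz0, hcmp⟩ := H0 v N id t c hc hT.1 (by simpa [mn] using hT.2) ht
  obtain ⟨hP1, hP2⟩ := main_ml_P v hc hx hy
  have hP0 : 0 < ⨆ i, v (![x, y, 1] i) := one_pos.trans_le hP1
  have hLP0 : 0 ≤ Real.log (⨆ i, v (![x, y, 1] i)) := Real.log_nonneg hP1
  have hLP1 : Real.log (⨆ i, v (![x, y, 1] i)) ≤ c := (Real.log_le_iff_le_exp hP0).2 hP2
  have hM := main_ml_sup_pos v hz0
  have hXp := main_ml_sup_pos v hX
  set z := N *ᵥ t with hzd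
  set Mx := ⨆ l, v (z l) with hMx
  have hzp : ∀ l, 0 < v (z l) := fun l => v.pos (hz l)
  have hzM : ∀ l, v (z l) ≤ Mx := fun l =>
    le_ciSup (f := fun l => v (z l)) (Set.finite_range _).bddAbove l
  obtain ⟨m, -, hm⟩ := Finset.exists_min_image Finset.univ
    (fun m => ∑ j, (e m j : ℝ) * Real.log (Mx / v (u j ⬝ᵥ t))) Finset.univ_nonempty
  obtain ⟨l, hl⟩ := exists_eq_ciInf_of_finite
    (f := fun l => lamM v (df l) (β l) ![x, y, 1] X (eval t (f l)))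
  have hv := hval (fun l => Real.log (Mx / v (z l))) (fun j => Real.log (Mx / v (u j ⬝ᵥ t))) _
    (fun l => Real.log_nonneg ((one_le_div (hzp l)).2 (hzM l)))
    (by
      obtain ⟨l, hl⟩ := exists_eq_ciSup_of_finite (f := fun l => v (z l))
      exact ⟨l, by rw [hl, div_self hM.ne', Real.log_one]⟩)
    (fun m j l h1 h2 => by
      have h3 := hle m j l h1 h2
      exact Real.log_le_log (div_pos hM ((hzp l).trans_le h3))
        (div_le_div_of_nonneg_left hM.le (hzp l) h3))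
    (fun m' => hm m' (Finset.mem_univ _)) l
  have hdet : 0 < v N.det := (Real.exp_pos _).trans_le hT.2
  have hdet0 : N.det ≠ 0 := v.pos_iff.1 hdet
  have hev := eval_hat_mul N (hf l).2.1 t
  obtain ⟨μ, hμ, hmono⟩ := exists_mono v (hat_hom N (hf l).2.1) (hf l).2.2 hM (hco l) hz
    (by rw [hev]; exact mul_ne_zero (pow_ne_zero _ hdet0) (hf0 l))
  have h1 := hv μ hμ
  rw [hev, map_mul, map_pow, Real.log_mul (by positivity) (v.pos (hf0 l)).ne', Real.log_pow]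
    at hmono
  have hld : -c ≤ Real.log (v N.det) := (Real.le_log_iff_exp_le hdet).2 hT.2
  have hhp : 0 < v (h m) := (Real.exp_pos _).trans_le (hh m)
  have hlh : -c ≤ Real.log (v (h m)) := (Real.le_log_iff_exp_le hhp).2 (hh m)
  have hGm := hG0 m
  rw [eval_prd] at hGm
  have hfac : ∀ j, (u j ⬝ᵥ t) ^ e m j ≠ 0 := fun j =>
    Finset.prod_ne_zero_iff.1 (right_ne_zero_of_mul hGm) j (Finset.mem_univ _)
  have h2 : Real.log (v (eval t (prd u (h m) (e m)))) = Real.log (v (h m)) +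
      ((∑ j, e m j : ℕ) * Real.log Mx - ∑ j, (e m j : ℝ) * Real.log (Mx / v (u j ⬝ᵥ t))) := by
    rw [eval_prd, map_mul, Real.log_mul hhp.ne' (v.pos (right_ne_zero_of_mul hGm)).ne', map_prod,
      Real.log_prod fun j _ => (v.pos (hfac j)).ne', Nat.cast_sum, Finset.sum_mul,
      ← Finset.sum_sub_distrib]
    congr 1
    refine Finset.sum_congr rfl fun j _ => ?_
    rw [map_pow, Real.log_pow]
    by_cases h0 : e m j = 0
    · simp [h0]
    · rw [Real.log_div hM.ne' (v.pos (ne_zero_pow h0 (hfac j))).ne']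
      ring
  have h3 : (⨅ m, lamM v (dG m) (∑ j, e m j) ![x, y, 1] X (eval t (prd u (h m) (e m)))) ≤
      lamM v (dG m) (∑ j, e m j) ![x, y, 1] X (eval t (prd u (h m) (e m))) :=
    ciInf_le (Set.finite_range _).bddBelow m
  rw [main_ml_lam v _ _ hP0 hX (hG0 m), h2] at h3
  rw [← hl, main_ml_lam v _ _ hP0 hX (hf0 l)]
  have h4 : ∑ l, Real.log (Mx / v (z l)) =
      ∑ l, lx v X (z l) - (r + 1) * (Real.log (⨆ i, v (X i)) - Real.log Mx) := by
    have : ∀ l, Real.log (Mx / v (z l)) =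
        lx v X (z l) - (Real.log (⨆ i, v (X i)) - Real.log Mx) := fun l => by
      rw [lx, Real.log_div hM.ne' (hzp l).ne', Real.log_div hXp.ne' (hzp l).ne']
      ring
    simp only [this, Finset.sum_sub_distrib]
    simp
    ring
  rw [h4] at h1
  set LP := Real.log (⨆ i, v (![x, y, 1] i))
  set LX := Real.log (⨆ i, v (X i))
  set LM := Real.log Mx
  have hE : |LX - LM| ≤ (C0 + 1) * (1 + c) := by
    have k1 := abs_le.1 hXt
    have k2 := abs_le.1 hcmp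
    rw [abs_le]
    constructor <;> linarith [k1.1, k1.2, k2.1, k2.2]
  set E := (C0 + 1) * (1 + c) with hEd
  have hE0 : 0 ≤ E := (abs_nonneg _).trans hE
  have hE' := abs_le.1 hE
  have b1 : ((dG m : ℕ) : ℝ) ≤ D := by exact_mod_cast (hG m).1
  have b2 : ((∑ j, e m j : ℕ) : ℝ) ≤ D := by exact_mod_cast (hG m).2
  have b3 : ((β l : ℕ) : ℝ) ≤ D := by exact_mod_cast (hf l).1
  have hD : (0 : ℝ) ≤ D := Nat.cast_nonneg _
  have k1 : (dG m : ℝ) * LP ≤ D * c := mul_le_mul b1 hLP1 hLP0 hD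
  have k2 : ((∑ j, e m j : ℕ) : ℝ) * (LX - LM) ≤ D * E :=
    (mul_le_mul_of_nonneg_left hE'.2 (Nat.cast_nonneg _)).trans (mul_le_mul_of_nonneg_right b2 hE0)
  have k3 : (β l : ℝ) * (LM - LX) ≤ D * E :=
    (mul_le_mul_of_nonneg_left (by linarith [hE'.1]) (Nat.cast_nonneg _)).trans
      (mul_le_mul_of_nonneg_right b3 hE0)
  have k4 : (β l : ℝ) * -Real.log (v N.det) ≤ D * c :=
    (mul_le_mul_of_nonneg_left (by linarith) (Nat.cast_nonneg _)).trans
      (mul_le_mul_of_nonneg_right b3 hc)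
  have k5 : 0 ≤ (df l : ℝ) * LP := mul_nonneg (Nat.cast_nonneg _) hLP0
  have k6 : ((r : ℝ) + 1) * (LM - LX) ≤ (r + 1) * E :=
    mul_le_mul_of_nonneg_left (by linarith [hE'.1]) (by positivity)
  have k7 : Real.log D ≤ D := Real.log_le_self hD
  have k8 : 0 ≤ (D : ℝ) * c := mul_nonneg hD hc
  have k9 : (2 * D + 2 + (2 * D + (r + 1)) * (C0 + 1) + D) * (1 + c) =
      (2 * D + 2 + D) * (1 + c) + (2 * D + (r + 1)) * E := by rw [hEd]; ring
  rw [k9]
  linarith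

theorem multU_hom {R : Type} [CommRing R] {r q : ℕ} (L : Fin q → Fin r → R) (h : R)
    (e : Fin q → ℕ) : (prd L h e).IsHomogeneous (∑ j, e j) := by
  refine IsHomogeneous.C_mul (IsHomogeneous.prod _ _ _ fun j _ => ?_) h
  simpa only [one_mul] using (IsHomogeneous.sum univ _ 1 fun i _ =>
    (isHomogeneous_X R i).C_mul (L j i)).pow (e j)

theorem multU_set {R : Type} [CommRing R] {n r q A A' : ℕ} (a b : R) (B : Matrix (Fin n) (Fin r) R)
    (L : Fin q → Fin r → R) (h : Fin A → R) (f : Fin A' → MvPolynomial (Fin r) R) :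
    ∃ Gs : Finset R, a ∈ Gs ∧ b ∈ Gs ∧ (∀ m, h m ∈ Gs) ∧ (∀ i j, B i j ∈ Gs) ∧
      (∀ s, mn B s ∈ Gs) ∧ (∀ ρ i j, rowM L ρ i j ∈ Gs) ∧ (∀ ρ, (rowM L ρ).det ∈ Gs) ∧
      ∀ ρ l μ, coeff μ (hat (rowM L ρ) (f l)) ∈ Gs := by
  classical
  refine ⟨{a, b, 0} ∪ (univ.image h ∪ (univ.image (fun z : Fin n × Fin r => B z.1 z.2) ∪
    (univ.image (mn B) ∪
    (univ.image (fun z : (Fin r → Fin q ⊕ Fin r) × Fin r × Fin r => rowM L z.1 z.2.1 z.2.2) ∪
    (univ.image (fun ρ => (rowM L ρ).det) ∪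
    univ.biUnion fun z : (Fin r → Fin q ⊕ Fin r) × Fin A' => (hat (rowM L z.1) (f z.2)).coeffs))))),
    mem_union_left _ (by simp), mem_union_left _ (by simp), fun m => ?_, fun i j => ?_, fun s => ?_,
    fun ρ i j => ?_, fun ρ => ?_, fun ρ l μ => ?_⟩
  · exact mem_union_right _ (mem_union_left _ (mem_image_of_mem _ (mem_univ _)))
  · iterate 2 apply mem_union_right
    exact mem_union_left _ (mem_image.2 ⟨(i, j), mem_univ _, rfl⟩)
  · iterate 3 apply mem_union_right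
    exact mem_union_left _ (mem_image_of_mem _ (mem_univ _))
  · iterate 4 apply mem_union_right
    exact mem_union_left _ (mem_image.2 ⟨(ρ, i, j), mem_univ _, rfl⟩)
  · iterate 5 apply mem_union_right
    exact mem_union_left _ (mem_image_of_mem (fun ρ => (rowM L ρ).det) (mem_univ _))
  · by_cases h0 : coeff μ (hat (rowM L ρ) (f l)) = 0
    · exact mem_union_left _ (by simp [h0])
    · iterate 6 apply mem_union_right
      exact mem_biUnion.2 ⟨(ρ, l), mem_univ _, coeff_mem_coeffs μ h0⟩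

/- `mainW` with `ε / 2` for `Ls` = the forms and the unit vectors; multiply `F` by `∏ l, X l` and by
`C (∏ u ∈ Z, (Polynomial.X - Polynomial.C u))`, `Z` the union of the sets of `val_pt`.  The constant is the sum over
all `ρ : Pl S → Fin (r + 1) → Fin q ⊕ Fin (r + 1)`.  At each place `greedy_rows` with
`J = {j | ∃ m, e m j ≠ 0}`; `absW_all` for the finite set of `X 0`, `X 1`, `0`, `1`, the `h m`, the entries of `L`, `B`,
all `mn B s`, all `(rowM L ρ).det`, all coefficients of all `hat (rowM L ρ) (f l)`; `sup_cmp`; `mult_loc` with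
`N = (rowM L ρ).map (eval ![x, y])` (`rowM_map`, `hat_map`, `prd_map`, `eval_map`, `support_map_subset`,
`RingHom.map_adjugate`; `eval_hat_mul` shows that `hat N (prd ..) ≠ 0`, `prd` is homogeneous). -/
theorem multU (W : WeierstrassCurve ℚ) [W.IsElliptic] (σ : k →+* ℂ) {n r q A A' : ℕ}
    (B : Matrix (Fin n) (Fin (r + 1)) (PK k)) (L : Fin q → Fin (r + 1) → PK k)
    (h : Fin (A + 1) → PK k) (e : Fin (A + 1) → Fin q → ℕ)
    (f : Fin (A' + 1) → MvPolynomial (Fin (r + 1)) (PK k)) (β : Fin (A' + 1) → ℕ)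
    (dG : Fin (A + 1) → ℕ) (df : Fin (A' + 1) → ℕ) (hβ : ∀ l, (f l).IsHomogeneous (β l))
    (hf : ∀ l, InMult W σ B (fun m => prd L (h m) (e m)) (f l)) {ε : ℝ} (hε : 0 < ε) :
    ∃ (d : ℕ) (F : MvPolynomial (Fin (r + 1)) (Polynomial k)), F ≠ 0 ∧ F.IsHomogeneous d ∧
      ∀ S : Finset (FinitePlace k), ∃ C : ℝ, ∀ (x y : k) (t : Fin (r + 1) → k),
        (W.map (algebraMap ℚ k)).toAffine.Equation x y →
        eval₂ (Polynomial.evalRingHom x) t F ≠ 0 → mn (B.map (eval ![x, y])) ≠ 0 →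
        (∀ m, eval₂ (eval ![x, y]) t (prd L (h m) (e m)) ≠ 0) →
        (∀ l, eval₂ (eval ![x, y]) t (f l) ≠ 0) →
        ∑ p : Pl S, mu p * ((⨅ m, lamM (av p) (dG m) (∑ j, e m j) ![x, y, 1]
            (B.map (eval ![x, y]) *ᵥ t) (eval₂ (eval ![x, y]) t (prd L (h m) (e m)))) -
          ⨅ l, lamM (av p) (df l) (β l) ![x, y, 1] (B.map (eval ![x, y]) *ᵥ t)
            (eval₂ (eval ![x, y]) t (f l))) + logHeight (mn (B.map (eval ![x, y]))) ≤
          (r + 1) * logHeight (B.map (eval ![x, y]) *ᵥ t) +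
            ε * (logHeight₁ x + logHeight (B.map (eval ![x, y]) *ᵥ t)) + C := by
  classical
  obtain ⟨d, F, hF0, hFd, H⟩ := mainW W (univ.image fun s : Fin q ⊕ Fin (r + 1) =>
    (Sum.elim L (fun i => Pi.single i 1) s : Fin (r + 1) → PK k)) B (half_pos hε)
  choose Z hZ using fun l => val_pt W σ B L h e (hf l)
  obtain ⟨D₁, hD₁⟩ := Finite.exists_le fun m => dG m + ∑ j, e m j
  obtain ⟨D₂, hD₂⟩ := Finite.exists_le
    fun z : Fin (A' + 1) × (Fin (r + 1) → Fin q ⊕ Fin (r + 1)) =>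
      β z.1 + (hat (rowM L z.2) (f z.1)).support.card
  obtain ⟨C₁, hC₁, H1⟩ := mult_loc (k := k) n r q A A' (D₁ + D₂)
  obtain ⟨C₂, hC₂, H2⟩ := sup_cmp (K := k) n (r + 1)
  obtain ⟨Gs, g1, g2, g3, g4, g5, g6, g7, g8⟩ := multU_set (X 0 : PK k) (X 1) B L h f
  refine ⟨_, F * (∏ l, X l) * C (∏ u ∈ univ.biUnion Z, (Polynomial.X - Polynomial.C u)),
    mul_ne_zero (mul_ne_zero hF0 (prod_ne_zero_iff.2 fun l _ => X_ne_zero _))
      (C_ne_zero.2 (prod_ne_zero_iff.2 fun u _ => Polynomial.X_sub_C_ne_zero u)),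
    (hFd.mul (IsHomogeneous.prod univ _ (fun _ => 1) fun l _ => isHomogeneous_X _ l)).mul
      (isHomogeneous_C _ _), fun S => ?_⟩
  choose Cr hCr using fun ρ : Pl S → Fin (r + 1) → Fin q ⊕ Fin (r + 1) =>
    H S (fun p => rowM L (ρ p)) fun p l => mem_image_of_mem _ (mem_univ _)
  obtain ⟨Wm, hW⟩ : ∃ Wm : ℝ, Wm = ∑ p : Pl S, (mu p : ℝ) := ⟨_, rfl⟩
  have hW0 : 0 ≤ Wm := hW ▸ sum_nonneg fun p _ => by positivity
  obtain ⟨s, hs⟩ : ∃ s : ℝ, s = ε / 2 / (Wm * (C₁ * (1 + C₂)) + 1) := ⟨_, rfl⟩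
  have hs0 : 0 < s := by rw [hs]; positivity
  have hs1 : Wm * (C₁ * (1 + C₂)) * s ≤ ε / 2 := by
    have : s * (Wm * (C₁ * (1 + C₂)) + 1) = ε / 2 := by rw [hs]; field_simp
    nlinarith
  obtain ⟨C₀, hC₀, H0⟩ := absW_all W S Gs hs0
  refine ⟨∑ ρ, |Cr ρ| + Wm * (C₁ * (1 + C₂)) * (1 + C₀), fun x y t hE hev hmn hG hfl => ?_⟩
  rw [eval₂_mul, eval₂_mul, eval₂_C, eval₂_prod, map_prod, mul_ne_zero_iff, mul_ne_zero_iff,
    prod_ne_zero_iff, prod_ne_zero_iff] at hev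
  have ht : ∀ l, t l ≠ 0 := fun l => by simpa using hev.1.2 l (mem_univ _)
  have hxZ : ∀ l, x ∉ Z l := fun l hx =>
    hev.2 x (mem_biUnion.2 ⟨l, mem_univ _, hx⟩) (by simp)
  have hht := zero_le_logHeight₁ x
  obtain ⟨c₀, hc₀⟩ : ∃ c₀, c₀ = s * logHeight₁ x + C₀ := ⟨_, rfl⟩
  have hc0 : 0 ≤ c₀ := by rw [hc₀]; positivity
  have hcc : c₀ ≤ c₀ + C₂ * (1 + c₀) := le_add_of_nonneg_right (by positivity)
  have k0 := H0 x y hE
  rw [← hc₀] at k0
  have k1 : ∀ p : Pl S, ∀ g ∈ Gs, av p (eval ![x, y] g) ≤ Real.exp (c₀ + C₂ * (1 + c₀)) :=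
    fun p g hg => (k0 p g hg).1.trans (Real.exp_le_exp.2 hcc)
  have k2 : ∀ p : Pl S, ∀ g ∈ Gs, eval ![x, y] g ≠ 0 →
      Real.exp (-(c₀ + C₂ * (1 + c₀))) ≤ av p (eval ![x, y] g) :=
    fun p g hg h0 => (Real.exp_le_exp.2 (neg_le_neg hcc)).trans ((k0 p g hg).2 h0)
  have hx : eval ![x, y] (X 0 : PK k) = x := by simp
  have hy : eval ![x, y] (X 1 : PK k) = y := by simp
  obtain ⟨φ, hφ⟩ : ∃ φ : PK k →+* k, φ = eval ![x, y] := ⟨_, rfl⟩
  have hZ' := fun l => hZ l x y hE (hxZ l) hmn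
  have hCr' := fun ρ => hCr ρ x y t hE hev.1.1 hmn
  rw [← hφ] at hmn hG hfl k0 k1 k2 hx hy hZ' hCr' ⊢
  simp only [← eval_map, prd_map] at hG hfl ⊢
  have hG1 : ∀ m, φ (h m) ≠ 0 := fun m => by
    have := hG m
    rw [eval_prd] at this
    exact left_ne_zero_of_mul this
  have hG2 : ∀ j ∈ univ.filter fun j => ∃ m, e m j ≠ 0, (fun i => φ (L j i)) ⬝ᵥ t ≠ 0 := by
    intro j hj h0
    obtain ⟨m, hm⟩ := (mem_filter.1 hj).2
    have := hG m
    rw [eval_prd] at this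
    exact prod_ne_zero_iff.1 (right_ne_zero_of_mul this) j (mem_univ _) (by rw [h0, zero_pow hm])
  choose ρ hρ1 hρ2 hρ3 using fun p : Pl S =>
    greedy_rows (av p) (fun j i => φ (L j i)) _ t hG2 ht
  obtain ⟨e₀, he₀⟩ := Function.ne_iff.1 hmn
  have h1 := hCr' ρ (fun p => by rw [rowM_map]; exact hρ1 p) fun p => by rw [rowM_map]; exact hρ2 p
  simp only [vol, rowM_map] at h1
  have h2 : ∀ p : Pl S, (⨅ m, lamM (av p) (dG m) (∑ j, e m j) ![x, y, 1] (B.map φ *ᵥ t)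
      (eval t (prd (fun j i => φ (L j i)) (φ (h m)) (e m)))) -
      (⨅ l, lamM (av p) (df l) (β l) ![x, y, 1] (B.map φ *ᵥ t) (eval t (map φ (f l)))) ≤
      ∑ l, lx (av p) (B.map φ *ᵥ t) ((rowM (fun j i => φ (L j i)) (ρ p) *ᵥ t) l) +
        C₁ * (1 + (c₀ + C₂ * (1 + c₀))) := by
    intro p
    have hN := rowM_map φ L (ρ p)
    have hd : (rowM (fun j i => φ (L j i)) (ρ p)).det = φ (rowM L (ρ p)).det := by
      rw [← hN]
      exact (φ.map_det _).symm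
    have hh : ∀ g, hat (rowM (fun j i => φ (L j i)) (ρ p)) (map φ g) =
        map φ (hat (rowM L (ρ p)) g) := fun g => by rw [hat_map, hN]
    have ha : ∀ j l, φ ((L j ᵥ* (rowM L (ρ p)).adjugate) l) =
        ((fun i => φ (L j i)) ᵥ* (rowM (fun j i => φ (L j i)) (ρ p)).adjugate) l := fun j l => by
      rw [RingHom.map_vecMul, ← hN]
      exact congrArg (fun M => ((φ ∘ L j) ᵥ* M) l) (φ.map_adjugate (rowM L (ρ p)))
    obtain ⟨s1, s2⟩ := H2 (av p) (B.map φ) e₀ t c₀ hc0 (fun i j => (k0 p _ (g4 i j)).1)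
      (by rw [mn_map] at he₀ ⊢; exact (k0 p _ (g5 e₀)).2 he₀) fun h0 => ht 0 (congrFun h0 0)
    refine H1 (av p) _ (fun m => φ (h m)) e (fun l => map φ (f l)) β dG df _ x y t _ _
      (hc0.trans hcc) (fun m => ?_) (fun l => ⟨?_, (hβ l).map φ, ?_⟩) ⟨fun i j => ?_, ?_⟩ ?_
      (hx ▸ k1 p _ g1) (hy ▸ k1 p _ g2) (fun m => k2 p _ (g3 m) (hG1 m)) (fun l μ => ?_) s1
      (s2.trans (le_add_of_nonneg_left hc0)) (hρ2 p) hG hfl
      (fun m j l hj => hρ3 p j (mem_filter.2 ⟨mem_univ _, m, hj⟩) l)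
      fun Wt w ν w1 w2 w3 w4 l => ?_
    · have := hD₁ m
      omega
    · have := hD₂ (l, ρ p)
      simp only at this
      omega
    · have := hD₂ (l, ρ p)
      have h3 := card_le_card (support_map_subset φ (hat (rowM L (ρ p)) (f l)))
      simp only at this
      rw [hh]
      omega
    · rw [← hN]
      exact k1 p _ (g6 _ i j)
    · rw [hd]
      exact k2 p _ (g7 _) (hd ▸ hρ1 p)
    · rw [hd]
      exact k1 p _ (g7 _)
    · rw [hh, coeff_map]
      exact k1 p _ (g8 _ l μ)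
    · rw [hh]
      refine hZ' l (ρ p) (hN ▸ hρ1 p) ⟨0, fun h0 => ?_⟩ Wt w ν w1 w2
        (fun m j l hj hl => w3 m j l hj (ha j l ▸ hl)) w4
      have h3 := eval_hat_mul (rowM (fun j i => φ (L j i)) (ρ p))
        (multU_hom (fun j i => φ (L j i)) (φ (h 0)) (e 0)) t
      rw [← prd_map, hh, h0, map_zero, prd_map] at h3
      exact mul_ne_zero (pow_ne_zero _ (hρ1 p)) (hG 0) h3.symm
  have h3 := sum_le_sum fun (p : Pl S) (_ : p ∈ univ) =>
    mul_le_mul_of_nonneg_left (h2 p) (Nat.cast_nonneg (mu p))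
  simp only [mul_add (mu _ : ℝ), sum_add_distrib, ← sum_mul, ← hW] at h3
  have h4 : Cr ρ ≤ ∑ ρ, |Cr ρ| := (le_abs_self _).trans
    (single_le_sum (f := fun ρ => |Cr ρ|) (fun _ _ => abs_nonneg _) (mem_univ ρ))
  have h5 := mul_le_mul_of_nonneg_right hs1 hht
  have h6 := mul_nonneg hε.le (logHeight_nonneg (B.map φ *ᵥ t))
  have h7 : Wm * (C₁ * (1 + (c₀ + C₂ * (1 + c₀)))) =
      Wm * (C₁ * (1 + C₂)) * s * logHeight₁ x + Wm * (C₁ * (1 + C₂)) * (1 + C₀) := by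
    rw [hc₀]
    ring
  push_cast at h1
  linarith

end Pool.Agent.Lib.MP_8865d3_nt.Em
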