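import Mathlib

/-! The valuative criterion for monomial valuations deduced from local integrability. -/

namespace Pool.Agent.Lib.MP_8865d3_nt.Em

open Finset Matrix MvPolynomial Filter Topology MeasureTheory

section Scale

variable {τ : Type} [Fintype τ]

/-- All monomials of `P` have weight at least `ν`. -/
def VfLow (W : τ → ℝ) (ν : ℝ) (P : MvPolynomial τ ℂ) : Prop :=
  ∀ μ ∈ P.support, ν ≤ Finsupp.weight W μ

/-- The least weight of a monomial of `P` is `ν`. -/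
def VfAtt (W : τ → ℝ) (ν : ℝ) (P : MvPolynomial τ ℂ) : Prop :=
  VfLow W ν P ∧ ∃ μ ∈ P.support, Finsupp.weight W μ = ν

omit [Fintype τ] in
theorem vf_exists_att (W : τ → ℝ) {P : MvPolynomial τ ℂ} (hP : P ≠ 0) : ∃ ν, VfAtt W ν P := by
  obtain ⟨μ, h1, h2⟩ := exists_min_image P.support (Finsupp.weight W) (support_nonempty.2 hP)
  exact ⟨_, h2, μ, h1, rfl⟩

/-- The rescaled polynomial. -/
noncomputable def vfPsi (W : τ → ℝ) (ν : ℝ) (P : MvPolynomial τ ℂ) (p : ℝ × (τ → ℂ)) : ℂ :=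
  ∑ μ ∈ P.support, coeff μ P * ((p.1 ^ (Finsupp.weight W μ - ν) : ℝ) * ∏ k, p.2 k ^ μ k)

theorem vf_psi_scale (W : τ → ℝ) (ν : ℝ) (P : MvPolynomial τ ℂ) {t : ℝ} (ht : 0 < t) (y : τ → ℂ) :
    ‖eval (fun k => ((t ^ W k : ℝ) : ℂ) * y k) P‖ = t ^ ν * ‖vfPsi W ν P (t, y)‖ := by
  have h1 : eval (fun k => ((t ^ W k : ℝ) : ℂ) * y k) P = (t ^ ν : ℝ) * vfPsi W ν P (t, y) := by
    rw [eval_eq', vfPsi, mul_sum]
    refine sum_congr rfl fun μ _ => ?_
    have h2 : ∏ k, (t ^ W k) ^ μ k = t ^ ν * t ^ (Finsupp.weight W μ - ν) := by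
      rw [← Real.rpow_add ht, add_sub_cancel, Finsupp.weight_eq_sum, Real.rpow_sum_of_pos ht]
      refine prod_congr rfl fun k _ => ?_
      rw [nsmul_eq_mul, mul_comm, Real.rpow_mul_natCast ht.le]
    have h3 := congrArg (fun r : ℝ => (r : ℂ)) h2
    simp only [Complex.ofReal_prod, Complex.ofReal_pow, Complex.ofReal_mul] at h3
    simp only [mul_pow, prod_mul_distrib, h3]
    ring
  rw [h1, norm_mul, Complex.norm_real, Real.norm_of_nonneg (by positivity)]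

theorem vf_psi_cont {W : τ → ℝ} {ν : ℝ} {P : MvPolynomial τ ℂ} (h : VfLow W ν P) :
    Continuous (vfPsi W ν P) := by
  refine continuous_finsetSum _ fun μ hμ => continuous_const.mul (Continuous.mul ?_ ?_)
  · exact Complex.continuous_ofReal.comp
      ((Real.continuous_rpow_const (sub_nonneg.2 (h μ hμ))).comp continuous_fst)
  · fun_prop

theorem vf_psi_zero {W : τ → ℝ} {ν : ℝ} {P : MvPolynomial τ ℂ} (h : VfAtt W ν P) :
    ∃ Q : MvPolynomial τ ℂ, Q ≠ 0 ∧ ∀ y, eval y Q = vfPsi W ν P (0, y) := by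
  classical
  refine ⟨∑ μ ∈ P.support, monomial μ (coeff μ P *
    (((0 : ℝ) ^ (Finsupp.weight W μ - ν) : ℝ) : ℂ)), fun h0 => ?_, fun y => ?_⟩
  · obtain ⟨μ, h1, h2⟩ := h.2
    have h3 := congrArg (coeff μ) h0
    rw [coeff_sum, sum_eq_single μ (fun κ _ hκ => by rw [coeff_monomial, if_neg hκ])
      (fun h => absurd h1 h), coeff_monomial, if_pos rfl, h2, sub_self] at h3
    exact mem_support_iff.1 h1 (by simpa using h3)
  · rw [map_sum, vfPsi]
    refine sum_congr rfl fun μ _ => ?_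
    rw [eval_monomial, Finsupp.prod_fintype _ _ (fun _ => pow_zero _), mul_assoc]

theorem vf_low_ev {W : τ → ℝ} {ν : ℝ} {P : MvPolynomial τ ℂ} (h : VfLow W ν P) (y : τ → ℂ) :
    ∀ᶠ C : ℝ in atTop, ∀ᶠ p in 𝓝 ((0 : ℝ), y), ‖vfPsi W ν P p‖ ≤ C := by
  filter_upwards [eventually_gt_atTop ‖vfPsi W ν P (0, y)‖] with C hC
  exact ((vf_psi_cont h).norm.continuousAt.eventually (gt_mem_nhds hC)).mono fun p hp => hp.le

theorem vf_att_ev {W : τ → ℝ} {ν : ℝ} {P : MvPolynomial τ ℂ} (h : VfLow W ν P) {y : τ → ℂ}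
    (hy : vfPsi W ν P (0, y) ≠ 0) :
    ∀ᶠ C : ℝ in atTop, ∀ᶠ p in 𝓝 ((0 : ℝ), y), C⁻¹ ≤ ‖vfPsi W ν P p‖ := by
  filter_upwards [tendsto_inv_atTop_zero.eventually (gt_mem_nhds (norm_pos_iff.2 hy))] with C hC
  exact ((vf_psi_cont h).norm.continuousAt.eventually (lt_mem_nhds hC)).mono fun p hp => hp.le

/-- Uniform two-sided bounds on a small rescaled polydisc. -/
theorem vf_exists_disc (W : τ → ℝ) {J₁ J₂ : Type} [Fintype J₁] [Fintype J₂] (ν₁ : J₁ → ℝ)
    (P₁ : J₁ → MvPolynomial τ ℂ) (h₁ : ∀ j, VfAtt W (ν₁ j) (P₁ j)) (ν₂ : J₂ → ℝ)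
    (P₂ : J₂ → MvPolynomial τ ℂ) (h₂ : ∀ j, VfLow W (ν₂ j) (P₂ j)) :
    ∃ (y₀ : τ → ℂ) (δ C : ℝ), 0 < δ ∧ 1 ≤ C ∧ ∀ t, 0 < t → t ≤ δ → ∀ z : τ → ℂ,
      (∀ k, z k ∈ Metric.closedBall (((t ^ W k : ℝ) : ℂ) * y₀ k) (t ^ W k * δ)) →
      (∀ j, C⁻¹ * t ^ ν₁ j ≤ ‖eval z (P₁ j)‖) ∧ ∀ j, ‖eval z (P₂ j)‖ ≤ C * t ^ ν₂ j := by
  choose Q hQ0 hQ using fun j => vf_psi_zero (h₁ j)
  have h3 : ∃ y, eval y (∏ j, Q j) ≠ 0 := by
    by_contra h
    push Not at h
    exact prod_ne_zero_iff.2 (fun j (_ : j ∈ univ) => hQ0 j)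
      (MvPolynomial.funext fun y => by rw [h y, map_zero])
  obtain ⟨y₀, hy₀⟩ := h3
  rw [map_prod] at hy₀
  obtain ⟨C, hC1, hC2, hC3⟩ := ((eventually_ge_atTop (1 : ℝ)).and ((eventually_all.2 fun j =>
    vf_att_ev (h₁ j).1 (hQ j y₀ ▸ prod_ne_zero_iff.1 hy₀ j (mem_univ j))).and
      (eventually_all.2 fun j => vf_low_ev (h₂ j) y₀))).exists
  obtain ⟨δ, hδ, hball⟩ := Metric.nhds_basis_closedBall.eventually_iff.1
    ((eventually_all.2 hC2).and (eventually_all.2 hC3))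
  refine ⟨y₀, δ, C, hδ, hC1, fun t ht htδ z hz => ?_⟩
  have hpos : ∀ k, 0 < t ^ W k := fun k => Real.rpow_pos_of_pos ht _
  have h4 : z = fun k => ((t ^ W k : ℝ) : ℂ) * (z k / (t ^ W k : ℝ)) := funext fun k => by
    rw [mul_div_cancel₀]
    exact_mod_cast (hpos k).ne'
  have h5 := hball (x := (t, fun k => z k / (t ^ W k : ℝ))) (by
    rw [Metric.mem_closedBall, Prod.dist_eq, max_le_iff, dist_pi_le_iff hδ.le]
    refine ⟨by simpa [abs_of_pos ht] using htδ, fun k => ?_⟩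
    have h6 := hz k
    rw [Metric.mem_closedBall, dist_eq_norm] at h6
    have h7 : z k / (t ^ W k : ℝ) - y₀ k = (z k - (t ^ W k : ℝ) * y₀ k) / (t ^ W k : ℝ) := by
      have : ((t ^ W k : ℝ) : ℂ) ≠ 0 := by exact_mod_cast (hpos k).ne'
      field_simp
    rw [dist_eq_norm, h7, norm_div, Complex.norm_real, Real.norm_of_nonneg (hpos k).le,
      div_le_iff₀' (hpos k)]
    exact h6)
  refine ⟨fun j => ?_, fun j => ?_⟩
  · rw [h4, vf_psi_scale W (ν₁ j) _ ht, mul_comm]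
    exact mul_le_mul_of_nonneg_left (h5.1 j) (by positivity)
  · rw [h4, vf_psi_scale W (ν₂ j) _ ht, mul_comm]
    exact mul_le_mul_of_nonneg_right (h5.2 j) (by positivity)

theorem vf_volume_disc (c : τ → ℂ) (r : τ → ℝ) (hr : ∀ k, 0 ≤ r k) :
    volume (Set.pi Set.univ fun k => Metric.closedBall (c k) (r k)) =
      ENNReal.ofReal (∏ k, r k ^ 2 * Real.pi) := by
  rw [volume_pi_pi, ENNReal.ofReal_prod_of_nonneg fun k _ => by positivity]
  refine prod_congr rfl fun k _ => ?_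
  rw [Complex.volume_closedBall, ENNReal.ofReal_mul (by positivity), ENNReal.ofReal_pow (hr k),
    ← NNReal.coe_real_pi, ENNReal.ofReal_coe_nnreal]

end Scale

variable {ι : Type} [Fintype ι] [DecidableEq ι]

/- Port of the section `Scale` and of `val_crit` of `Lib/MP_8865d3_nt/Anal.lean` (do not import it: copy `Low`,
`Att`, `psi`, .., `exists_disc`, `volume_disc` with `ℂ` in place of `ℤ`; no base variables, no matrix).  With
`νf` the least weight of a monomial of `f`, on the polydisc with centre `t ^ W k * y₀ k` and radii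
`t ^ W k * δ` the integrand is at least `c₁ * t ^ (2 * (νf - c * ν))`, the volume is `c₂ * t ^ (2 * ∑ W)`, and the
polydiscs lie in a compact subset of `{z | z ≠ 0}` (`X i₀` is bounded below). -/
theorem val_fib {M : Type} [Fintype M] (G : M → MvPolynomial ι ℂ) (f : MvPolynomial ι ℂ) {c : ℝ}
    (hc : 0 < c) (h : LocallyIntegrableOn (fun z : ι → ℂ =>
      ‖eval z f‖ ^ 2 / (∑ m, ‖eval z (G m)‖ ^ 2) ^ c) {z | z ≠ 0} volume)
    (W : ι → ℝ) (hW : ∀ i, 0 ≤ W i) {i₀ : ι} (hi₀ : W i₀ = 0) {ν : ℝ}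
    (hG : ∀ m, ∀ μ ∈ (G m).support, ν ≤ Finsupp.weight W μ) {m₀ : M} (hm₀ : G m₀ ≠ 0)
    {μ : ι →₀ ℕ} (hμ : μ ∈ f.support) : c * ν ≤ Finsupp.weight W μ + ∑ i, W i := by
  have hXl : ∀ i, VfLow W 0 (X i : MvPolynomial ι ℂ) := fun i κ hκ => by
    rw [support_X, mem_singleton] at hκ
    simpa [hκ, Finsupp.weight_single] using hW i
  have hXs : VfAtt W 0 (X i₀ : MvPolynomial ι ℂ) :=
    ⟨hXl i₀, Finsupp.single i₀ 1, by simp [support_X], by
      simpa [Finsupp.weight_single] using hi₀⟩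
  obtain ⟨ν₀, hν₀⟩ := vf_exists_att W hm₀
  obtain ⟨νf, hνf⟩ := vf_exists_att W (support_nonempty.1 ⟨μ, hμ⟩)
  refine le_trans ?_ (add_le_add (hνf.1 μ hμ) le_rfl)
  obtain ⟨y₀, δ, C, hδ, hC, H⟩ := vf_exists_disc W ![νf, ν₀, 0] ![f, G m₀, X i₀]
    (fun j => by fin_cases j; exacts [hνf, hν₀, hXs]) (J₂ := M ⊕ ι)
    (Sum.elim (fun _ => ν) fun _ => 0) (Sum.elim G fun i => X i)
    (by rintro (m | i); exacts [hG m, hXl i])
  have hC0 : 0 < C := by linarith
  set K : Set (ι → ℂ) := Metric.closedBall 0 C ∩ {z | C⁻¹ ≤ ‖z i₀‖} with hK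
  have hKc : IsCompact K := (isCompact_closedBall _ _).inter_right
    (isClosed_le continuous_const (by fun_prop))
  have hint := h.integrableOn_compact_subset (t := K) (by
    rintro z ⟨-, h1⟩ h
    simp only [Set.mem_ofPred_eq, h, Pi.zero_apply, norm_zero] at h1
    exact absurd h1 (not_le.2 (by positivity))) hKc
  set F := fun z : ι → ℂ => ‖eval z f‖ ^ 2 / (∑ m, ‖eval z (G m)‖ ^ 2) ^ c with hF
  set B : ℝ := ∑ _m : M, C ^ 2 with hB
  have hB0 : 0 < B := sum_pos (fun m _ => by positivity) ⟨m₀, mem_univ _⟩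
  set c₁ : ℝ := C⁻¹ ^ 2 / B ^ c * ∏ _k : ι, δ ^ 2 * Real.pi with hc₁
  have hc₁0 : 0 < c₁ := by
    have : 0 < ∏ _k : ι, δ ^ 2 * Real.pi := prod_pos fun _ _ => by positivity
    positivity
  have hbd : ∀ t, 0 < t → t ≤ δ → c₁ * t ^ (2 * (νf + ∑ k, W k - c * ν)) ≤
      (∫⁻ z in K, ‖F z‖ₑ).toReal := by
    intro t ht htδ
    have hp : ∀ e : ℝ, 0 < t ^ e := fun e => Real.rpow_pos_of_pos ht e
    set E := Set.pi Set.univ fun k => Metric.closedBall
      (((t ^ W k : ℝ) : ℂ) * y₀ k) (t ^ W k * δ) with hE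
    have hvol := vf_volume_disc (fun k => ((t ^ W k : ℝ) : ℂ) * y₀ k) (fun k => t ^ W k * δ)
      fun k => (mul_pos (hp _) hδ).le
    rw [← hE] at hvol
    set m₁ : ℝ := C⁻¹ ^ 2 / B ^ c * t ^ (2 * (νf - c * ν)) with hm₁
    have hEK : ∀ z ∈ E, z ∈ K ∧ m₁ ≤ F z := by
      intro z hz
      obtain ⟨h1, h2⟩ := H t ht htδ z fun k => hz k trivial
      have e1 := h1 0
      have e3 := h1 1
      have e4 := h1 2
      have e6 := fun m => h2 (Sum.inl m)
      have e7 := fun k => h2 (Sum.inr k)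
      simp only [Matrix.cons_val, Sum.elim_inl, Sum.elim_inr, eval_X, Real.rpow_zero,
        mul_one] at e1 e3 e4 e6 e7
      refine ⟨⟨?_, e4⟩, ?_⟩
      · rw [mem_closedBall_zero_iff, pi_norm_le_iff_of_nonneg hC0.le]
        exact e7
      · have h7 : 0 < ‖eval z (G m₀)‖ := (mul_pos (inv_pos.2 hC0) (hp _)).trans_le e3
        have h8 : 0 < ∑ m, ‖eval z (G m)‖ ^ 2 :=
          sum_pos' (fun _ _ => by positivity) ⟨m₀, mem_univ _, by positivity⟩
        have h9 : ∑ m, ‖eval z (G m)‖ ^ 2 ≤ B * (t ^ ν) ^ 2 := by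
          rw [hB, sum_mul]
          refine sum_le_sum fun m _ => ?_
          rw [← mul_pow]
          exact pow_le_pow_left₀ (norm_nonneg _) (e6 m) 2
        refine le_trans (le_of_eq ?_) (div_le_div₀ (by positivity)
          (pow_le_pow_left₀ (by have := hp νf; positivity) e1 2)
          (Real.rpow_pos_of_pos h8 c) (Real.rpow_le_rpow h8.le h9 hc.le))
        rw [hm₁, Real.mul_rpow hB0.le (by positivity), mul_pow, ← Real.rpow_mul_natCast ht.le,
          ← Real.rpow_mul_natCast ht.le, ← Real.rpow_mul ht.le, mul_div_mul_comm,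
          ← Real.rpow_sub ht]
        congr 2
        push_cast
        ring
    have h1 : ENNReal.ofReal m₁ * volume E ≤ ∫⁻ z in K, ‖F z‖ₑ := by
      refine le_trans ?_ (lintegral_mono_set fun z hz => (hEK z hz).1)
      rw [← setLIntegral_const]
      refine setLIntegral_mono'
        (isClosed_set_pi fun _ _ => Metric.isClosed_closedBall).measurableSet fun z hz => ?_
      rw [← ofReal_norm]
      exact ENNReal.ofReal_le_ofReal ((hEK z hz).2.trans (le_abs_self _))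
    have hm₁0 : 0 ≤ m₁ := by have := hp (2 * (νf - c * ν)); positivity
    rw [hvol, ← ENNReal.ofReal_mul hm₁0, ENNReal.ofReal_le_iff_le_toReal hint.2.ne] at h1
    refine le_trans (le_of_eq ?_) h1
    have h3 : ∏ k : ι, (t ^ W k * δ) ^ 2 * Real.pi =
        t ^ (2 * ∑ k, W k) * ∏ _k : ι, δ ^ 2 * Real.pi := by
      rw [mul_sum, Real.rpow_sum_of_pos ht, ← prod_mul_distrib]
      refine prod_congr rfl fun k _ => ?_
      rw [mul_comm 2, mul_pow, ← Real.rpow_mul_natCast ht.le]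
      push_cast
      ring
    rw [h3, hc₁, hm₁, show 2 * (νf + ∑ k, W k - c * ν) = 2 * (νf - c * ν) + 2 * ∑ k, W k by ring,
      Real.rpow_add ht]
    ring
  by_contra hneg
  have h1 := ((tendsto_rpow_neg_nhdsGT_zero (y := 2 * (νf + ∑ k, W k - c * ν))
    (by linarith)).const_mul_atTop hc₁0).eventually_gt_atTop (∫⁻ z in K, ‖F z‖ₑ).toReal
  obtain ⟨t, h2, h3⟩ := (h1.and (Ioc_mem_nhdsGT hδ)).exists
  exact absurd (hbd t h3.1 h3.2) (not_le.2 h2)

/- The linear homeomorphism `z ↦ A *ᵥ z` multiplies the Haar measure by a nonzero finite constant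
(`Measure.map_linearMap_addHaar_eq_smul_addHaar` for the real linear map, or `volume_region` of `Anal.lean`;
`MeasurableEmbedding.integrableOn_map_iff`, `Homeomorph.measurableEmbedding`). -/
theorem li_lin {A : Matrix ι ι ℂ} (hA : A.det ≠ 0) {F : (ι → ℂ) → ℝ}
    (h : LocallyIntegrableOn F {z | z ≠ 0} volume) :
    LocallyIntegrableOn (fun z => F (A *ᵥ z)) {z | z ≠ 0} volume := by
  let e : (ι → ℂ) ≃L[ℂ] (ι → ℂ) :=
    (A.toLinearEquiv' (A.invertibleOfIsUnitDet (Ne.isUnit hA))).toContinuousLinearEquiv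
  let m : (ι → ℂ) ≃ᵐ (ι → ℂ) := e.toHomeomorph.toMeasurableEquiv
  have hH : (Measure.map m (volume : Measure (ι → ℂ))).IsAddHaarMeasure := e.isAddHaarMeasure_map _
  have hmap := Measure.isAddLeftInvariant_eq_smul (Measure.map m (volume : Measure (ι → ℂ))) volume
  intro z hz
  have hz' : e z ∈ {z : ι → ℂ | z ≠ 0} := fun h0 => hz (e.map_eq_zero_iff.1 h0)
  obtain ⟨s, hs, hi⟩ := h (e z) hz'
  have ht : Tendsto e (𝓝[{z : ι → ℂ | z ≠ 0}] z) (𝓝[{z : ι → ℂ | z ≠ 0}] (e z)) :=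
    e.continuous.continuousWithinAt.tendsto_nhdsWithin fun w hw h0 => hw (e.map_eq_zero_iff.1 h0)
  refine ⟨m ⁻¹' s, ht hs, ?_⟩
  have h1 : IntegrableOn F s (Measure.map m (volume : Measure (ι → ℂ))) := by
    rw [hmap, IntegrableOn, Measure.restrict_smul]
    exact Integrable.smul_measure_nnreal hi
  exact (integrableOn_map_equiv m).1 h1

/- Take a closed disc `A ⊆ U` of positive radius and `K n = {t | 1 / (n + 1) ≤ ‖t‖ ≤ n + 1}`; `F` is integrable on
the compact `A ×ˢ K n` (`LocallyIntegrableOn.integrableOn_compact_subset`), so almost every fibre is integrable on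
`K n` (`Measure.prod_restrict`, `Integrable.prod_right_ae`, `ae_all_iff`); finite sets are null. -/
theorem li_fib {U : Set ℂ} (hU : IsOpen U) (hne : U.Nonempty) {F : ℂ × (ι → ℂ) → ℝ}
    (h : LocallyIntegrableOn F {z | z.1 ∈ U ∧ z.2 ≠ 0} volume) (Z : Finset ℂ) :
    ∃ x ∈ U, x ∉ Z ∧ LocallyIntegrableOn (fun t => F (x, t)) {t | t ≠ 0} volume := by
  obtain ⟨x₀, hx₀⟩ := hne
  obtain ⟨r, hr, hA⟩ := Metric.nhds_basis_closedBall.mem_iff.1 (hU.mem_nhds hx₀)
  let K : ℕ → Set (ι → ℂ) := fun n => {t | 1 / ((n : ℝ) + 1) ≤ ‖t‖ ∧ ‖t‖ ≤ n + 1}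
  have hK : ∀ n, IsCompact (K n) := fun n =>
    (isCompact_closedBall (0 : ι → ℂ) (n + 1)).of_isClosed_subset
      ((isClosed_le continuous_const continuous_norm).inter
        (isClosed_le continuous_norm continuous_const)) fun t ht => mem_closedBall_zero_iff.2 ht.2
  have h1 : ∀ n, ∀ᵐ x ∂(volume.restrict (Metric.closedBall x₀ r)),
      IntegrableOn (fun t => F (x, t)) (K n) volume := by
    intro n
    have h2 : IntegrableOn F (Metric.closedBall x₀ r ×ˢ K n) volume := by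
      refine h.integrableOn_compact_subset (fun z hz => ⟨hA hz.1, fun e => ?_⟩)
        ((isCompact_closedBall _ _).prod (hK n))
      have h3 := hz.2.1
      rw [e, norm_zero] at h3
      exact absurd h3 (not_le.2 (by positivity))
    rw [IntegrableOn, Measure.volume_eq_prod, ← Measure.prod_restrict] at h2
    exact h2.prod_right_ae
  have h2 : ∀ᵐ x ∂(volume.restrict (Metric.closedBall x₀ r)), x ∉ Z :=
    ae_restrict_of_ae (Z.finite_toSet.countable.ae_notMem volume)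
  have h3 : ∀ᵐ x ∂(volume.restrict (Metric.closedBall x₀ r)), x ∈ Metric.closedBall x₀ r :=
    ae_restrict_mem Metric.isClosed_closedBall.measurableSet
  have : NeZero (volume.restrict (Metric.closedBall x₀ r)) :=
    ⟨fun e => (Metric.measure_closedBall_pos volume x₀ hr).ne' (Measure.restrict_eq_zero.1 e)⟩
  obtain ⟨x, ⟨hx1, hx2⟩, hx3⟩ := (((ae_all_iff.2 h1).and h2).and h3).exists
  refine ⟨x, hA hx3, hx2, fun t ht => ?_⟩
  have ht0 : 0 < ‖t‖ := norm_pos_iff.2 ht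
  obtain ⟨n, hn⟩ := exists_nat_gt (max ‖t‖ (1 / ‖t‖))
  refine ⟨K n, mem_nhdsWithin_of_mem_nhds ?_, hx1 n⟩
  have h4 : 1 / ((n : ℝ) + 1) < ‖t‖ := by
    rw [one_div_lt (by positivity) ht0]
    linarith [le_max_right ‖t‖ (1 / ‖t‖)]
  have h5 : ‖t‖ < n + 1 := by linarith [le_max_left ‖t‖ (1 / ‖t‖)]
  filter_upwards [continuous_norm.continuousAt.eventually (Ioo_mem_nhds h4 h5)] with u hu
  exact ⟨hu.1.le, hu.2.le⟩

end Pool.Agent.Lib.MP_8865d3_nt.Em
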